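import Pool.Agent.Q85.Ritt4

set_option autoImplicit false
open Filter Topology Finset

namespace Pool.Agent.Results.MP_e7950b_an.RittAndMaximal

open Pool.Agent.Q85.Ritt (A co co_add co_sub co_neg co_smul co_zero co_one sp mem_sp notMem_sp co_mul U D co_U Rep mix
  pair_eq sum_Icc_symm)

/-- `(a * b)(k) = ∑_j a(j) b(k - j)` on `ℤ`. -/
noncomputable def conv (a b : ℤ → ℝ) : ℤ → ℝ := fun k => ∑' j, a j * b (k - j)

/-- `δ₀` -/
noncomputable def delta : ℤ → ℝ := fun k => if k = 0 then 1 else 0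

/-- convolution powers, `a^{*0} = δ₀` -/
noncomputable def cpow (a : ℤ → ℝ) : ℕ → ℤ → ℝ
  | 0 => delta
  | n + 1 => conv a (cpow a n)

/-- Symmetric probability measures on `ℤ` which are non-increasing on `ℕ`. -/
def IsSymNonincProb (μ : ℤ → ℝ) : Prop :=
  (∀ k, 0 ≤ μ k) ∧ HasSum μ 1 ∧ (∀ k, μ (-k) = μ k) ∧ ∀ n : ℕ, μ ((n : ℤ) + 1) ≤ μ n

/-- `sup_{n ≥ 1} n ‖μ^{*n} - μ^{*(n+1)}‖_{ℓ¹} < ∞` -/
def IsRitt (μ : ℤ → ℝ) : Prop :=
  ∃ C : ℝ, ∀ n : ℕ, 1 ≤ n → Summable (fun k => |cpow μ n k - cpow μ (n + 1) k|) ∧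
    (n : ℝ) * ∑' k, |cpow μ n k - cpow μ (n + 1) k| ≤ C

/-- the maximal function of order `m` -/
noncomputable def maxFun (μ : ℤ → ℝ) (m : ℕ) (f : ℤ → ℝ) (k : ℤ) : ENNReal :=
  ⨆ (n : ℕ) (_ : 1 ≤ n), ENNReal.ofReal
    ((n : ℝ) ^ m * |conv (conv (cpow μ n) (cpow (fun k => delta k - μ k) m)) f k|)

/-- the weak type maximal inequality of order `m` -/
def WeakType (μ : ℤ → ℝ) (m : ℕ) : Prop :=
  ∃ C : ℝ, 0 < C ∧ ∀ f : ℤ → ℝ, Summable (fun k => |f k|) → ∀ lam : ℝ, 0 < lam →
    {k : ℤ | ENNReal.ofReal lam ≤ maxFun μ m f k}.Finite ∧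
    lam * ({k : ℤ | ENNReal.ofReal lam ≤ maxFun μ m f k}.ncard : ℝ) ≤ C * ∑' k, |f k|

/-! ### Convolution in `ℓ¹` -/

section conv

/-- the substitution `(k, j) ↦ (j, k - j)` -/
def shear : ℤ × ℤ ≃ ℤ × ℤ where
  toFun p := (p.2, p.1 - p.2)
  invFun q := (q.1 + q.2, q.1)
  left_inv p := by ext <;> simp
  right_inv q := by ext <;> simp

theorem summable_prod {a b : ℤ → ℝ} (ha : Summable (fun k => |a k|)) (hb : Summable (fun k => |b k|)) :
    Summable (fun p : ℤ × ℤ => |a p.2| * |b (p.1 - p.2)|) := by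
  have h1 : Summable (fun q : ℤ × ℤ => |a q.1| * |b q.2|) :=
    ha.mul_of_nonneg hb (fun _ => abs_nonneg _) (fun _ => abs_nonneg _)
  exact shear.summable_iff.2 h1

theorem tsum_prod {a b : ℤ → ℝ} (ha : Summable (fun k => |a k|)) (hb : Summable (fun k => |b k|)) :
    ∑' k, ∑' j, |a j| * |b (k - j)| = (∑' k, |a k|) * ∑' k, |b k| := by
  have h1 := (summable_prod ha hb).tsum_prod
  rw [← h1]
  have h2 : ∑' p : ℤ × ℤ, |a p.2| * |b (p.1 - p.2)| = ∑' q : ℤ × ℤ, |a q.1| * |b q.2| :=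
    shear.tsum_eq (fun q : ℤ × ℤ => |a q.1| * |b q.2|)
  rw [h2, tsum_mul_tsum_of_summable_norm (by simpa using ha) (by simpa using hb)]

theorem summable_row {a b : ℤ → ℝ} (ha : Summable (fun k => |a k|)) (hb : Summable (fun k => |b k|)) (k : ℤ) :
    Summable (fun j => a j * b (k - j)) := by
  have h1 := (summable_prod ha hb).prod_factor k
  exact Summable.of_norm (by simpa [abs_mul] using h1)

theorem summable_conv {a b : ℤ → ℝ} (ha : Summable (fun k => |a k|)) (hb : Summable (fun k => |b k|)) :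
    Summable (fun k => |conv a b k|) := by
  refine Summable.of_nonneg_of_le (fun _ => abs_nonneg _) (fun k => ?_) (summable_prod ha hb).prod
  have h1 := (summable_prod ha hb).prod_factor k
  have h2 : Summable (fun j => ‖a j * b (k - j)‖) := by simpa [abs_mul] using h1
  have h3 := norm_tsum_le_tsum_norm h2
  simpa [conv, abs_mul] using h3

theorem nrm_conv {a b : ℤ → ℝ} (ha : Summable (fun k => |a k|)) (hb : Summable (fun k => |b k|)) :
    ∑' k, |conv a b k| ≤ (∑' k, |a k|) * ∑' k, |b k| := by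
  rw [← tsum_prod ha hb]
  refine Summable.tsum_le_tsum (fun k => ?_) (summable_conv ha hb) (summable_prod ha hb).prod
  have h1 := (summable_prod ha hb).prod_factor k
  have h2 : Summable (fun j => ‖a j * b (k - j)‖) := by simpa [abs_mul] using h1
  have h3 := norm_tsum_le_tsum_norm h2
  simpa [conv, abs_mul] using h3

theorem summable_sub' {a b : ℤ → ℝ} (ha : Summable (fun k => |a k|)) (hb : Summable (fun k => |b k|)) :
    Summable (fun k => |a k - b k|) :=
  Summable.of_nonneg_of_le (fun _ => abs_nonneg _) (fun _ => abs_sub _ _) (ha.add hb)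

/-- convergence in `ℓ¹` -/
structure Lim (aR : ℕ → ℤ → ℝ) (a : ℤ → ℝ) : Prop where
  s1 : ∀ R, Summable (fun k => |aR R k|)
  s2 : Summable (fun k => |a k|)
  t : Tendsto (fun R => ∑' k, |aR R k - a k|) atTop (𝓝 0)

theorem Lim.const {a : ℤ → ℝ} (ha : Summable (fun k => |a k|)) : Lim (fun _ => a) a :=
  ⟨fun _ => ha, ha, by simp⟩

theorem Lim.bdd {aR : ℕ → ℤ → ℝ} {a : ℤ → ℝ} (h : Lim aR a) (R : ℕ) :
    ∑' k, |aR R k| ≤ ∑' k, |a k| + ∑' k, |aR R k - a k| := by
  rw [← h.s2.tsum_add (summable_sub' (h.s1 R) h.s2)]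
  refine Summable.tsum_le_tsum (fun k => ?_) (h.s1 R) (h.s2.add (summable_sub' (h.s1 R) h.s2))
  have := abs_add_le (a k) (aR R k - a k)
  rw [add_sub_cancel] at this
  exact this

theorem Lim.bdd' {aR : ℕ → ℤ → ℝ} {a : ℤ → ℝ} (h : Lim aR a) (R : ℕ) :
    ∑' k, |a k| ≤ ∑' k, |aR R k| + ∑' k, |aR R k - a k| := by
  rw [← (h.s1 R).tsum_add (summable_sub' (h.s1 R) h.s2)]
  refine Summable.tsum_le_tsum (fun k => ?_) h.s2 ((h.s1 R).add (summable_sub' (h.s1 R) h.s2))
  have := abs_sub (aR R k) (aR R k - a k)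
  rw [sub_sub_cancel] at this
  exact this

theorem Lim.sub {aR bR : ℕ → ℤ → ℝ} {a b : ℤ → ℝ} (ha : Lim aR a) (hb : Lim bR b) :
    Lim (fun R k => aR R k - bR R k) (fun k => a k - b k) := by
  refine ⟨fun R => summable_sub' (ha.s1 R) (hb.s1 R), summable_sub' ha.s2 hb.s2, ?_⟩
  have h1 := ha.t.add hb.t
  rw [add_zero] at h1
  refine squeeze_zero (fun R => tsum_nonneg fun _ => abs_nonneg _) (fun R => ?_) h1
  rw [← (summable_sub' (ha.s1 R) ha.s2).tsum_add (summable_sub' (hb.s1 R) hb.s2)]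
  refine Summable.tsum_le_tsum (fun k => ?_) (summable_sub' (summable_sub' (ha.s1 R) (hb.s1 R)) (summable_sub' ha.s2 hb.s2))
    ((summable_sub' (ha.s1 R) ha.s2).add (summable_sub' (hb.s1 R) hb.s2))
  have := abs_sub (aR R k - a k) (bR R k - b k)
  refine le_trans (le_of_eq ?_) this
  congr 1; ring

theorem conv_sub_left {a a' b : ℤ → ℝ} (ha : Summable (fun k => |a k|)) (ha' : Summable (fun k => |a' k|))
    (hb : Summable (fun k => |b k|)) (k : ℤ) : conv (fun j => a j - a' j) b k = conv a b k - conv a' b k := by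
  unfold conv
  rw [← (summable_row ha hb k).tsum_sub (summable_row ha' hb k)]
  exact tsum_congr (fun j => by ring)

theorem conv_sub_right {a b b' : ℤ → ℝ} (ha : Summable (fun k => |a k|)) (hb : Summable (fun k => |b k|))
    (hb' : Summable (fun k => |b' k|)) (k : ℤ) : conv a (fun j => b j - b' j) k = conv a b k - conv a b' k := by
  unfold conv
  rw [← (summable_row ha hb k).tsum_sub (summable_row ha hb' k)]
  exact tsum_congr (fun j => by ring)

theorem Lim.conv {aR bR : ℕ → ℤ → ℝ} {a b : ℤ → ℝ} (ha : Lim aR a) (hb : Lim bR b) :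
    Lim (fun R => RittAndMaximal.conv (aR R) (bR R)) (RittAndMaximal.conv a b) := by
  refine ⟨fun R => summable_conv (ha.s1 R) (hb.s1 R), summable_conv ha.s2 hb.s2, ?_⟩
  have h1 : Tendsto (fun R => (∑' k, |aR R k - a k|) * (∑' k, |b k| + ∑' k, |bR R k - b k|)
      + (∑' k, |a k|) * ∑' k, |bR R k - b k|) atTop (𝓝 (0 * (∑' k, |b k| + 0) + (∑' k, |a k|) * 0)) :=
    (ha.t.mul (tendsto_const_nhds.add hb.t)).add (tendsto_const_nhds.mul hb.t)
  rw [zero_mul, mul_zero, add_zero] at h1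
  refine squeeze_zero (fun R => tsum_nonneg fun _ => abs_nonneg _) (fun R => ?_) h1
  have s1 := summable_sub' (ha.s1 R) ha.s2
  have s2 := summable_sub' (hb.s1 R) hb.s2
  have e : ∀ k, RittAndMaximal.conv (aR R) (bR R) k - RittAndMaximal.conv a b k
      = RittAndMaximal.conv (fun j => aR R j - a j) (bR R) k + RittAndMaximal.conv a (fun j => bR R j - b j) k := by
    intro k
    rw [conv_sub_left (ha.s1 R) ha.s2 (hb.s1 R), conv_sub_right ha.s2 (hb.s1 R) hb.s2]; ring
  have h2 : ∑' k, |RittAndMaximal.conv (aR R) (bR R) k - RittAndMaximal.conv a b k|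
      ≤ ∑' k, |RittAndMaximal.conv (fun j => aR R j - a j) (bR R) k| + ∑' k, |RittAndMaximal.conv a (fun j => bR R j - b j) k| := by
    rw [← (summable_conv s1 (hb.s1 R)).tsum_add (summable_conv ha.s2 s2)]
    refine Summable.tsum_le_tsum (fun k => ?_)
      (summable_sub' (summable_conv (ha.s1 R) (hb.s1 R)) (summable_conv ha.s2 hb.s2))
      ((summable_conv s1 (hb.s1 R)).add (summable_conv ha.s2 s2))
    rw [e]; exact abs_add_le _ _
  refine h2.trans (add_le_add ?_ (nrm_conv ha.s2 s2))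
  refine (nrm_conv s1 (hb.s1 R)).trans ?_
  exact mul_le_mul_of_nonneg_left (hb.bdd R) (tsum_nonneg fun _ => abs_nonneg _)

theorem summable_delta : Summable (fun k => |delta k|) := by
  refine summable_of_ne_finset_zero (s := {0}) (fun k hk => ?_)
  have : k ≠ 0 := by simpa using hk
  simp [delta, this]

theorem summable_cpow {a : ℤ → ℝ} (ha : Summable (fun k => |a k|)) (n : ℕ) : Summable (fun k => |cpow a n k|) := by
  induction n with
  | zero => exact summable_delta
  | succ n ih => exact summable_conv ha ih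

theorem Lim.cpow {aR : ℕ → ℤ → ℝ} {a : ℤ → ℝ} (ha : Lim aR a) (n : ℕ) :
    Lim (fun R => RittAndMaximal.cpow (aR R) n) (RittAndMaximal.cpow a n) := by
  induction n with
  | zero => exact Lim.const summable_delta
  | succ n ih => exact ha.conv ih

/-! ### Finitely supported functions -/

theorem summable_co (F : A) : Summable (fun k => |co F k|) :=
  summable_of_ne_finset_zero (s := sp F) (fun k hk => by rw [notMem_sp.1 hk, abs_zero])

theorem co_mul_eq (F G : A) : co (F * G) = conv (co F) (co G) := by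
  funext k
  have h := co_mul G F k 0 (sp F) (fun s hs => mem_sp.2 (by simpa using hs))
  simp only [sub_zero] at h
  rw [mul_comm, h]
  unfold conv
  rw [tsum_eq_sum (s := sp F)]
  · exact Finset.sum_congr rfl (fun s _ => mul_comm _ _)
  · intro j hj; rw [notMem_sp.1 hj, zero_mul]

theorem co_one_eq : co 1 = delta := by
  funext k; rw [co_one]; rfl

theorem co_pow_eq (F : A) (n : ℕ) : co (F ^ n) = cpow (co F) n := by
  induction n with
  | zero => rw [pow_zero, co_one_eq]; rfl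
  | succ n ih => rw [pow_succ', co_mul_eq, ih]; rfl

theorem co_one_sub (F : A) : co (1 - F) = fun k => delta k - co F k := by
  funext k; rw [co_sub, co_one_eq]

theorem Rep.nrm {F : A} {B : ℝ} (h : Rep F B) : ∑' k, |co F k| ≤ B := by
  induction h with
  | base j =>
    have h1 := (Pool.Agent.Q85.Ritt.good_U j).mass
    have h2 : ∑' k, |co (U j) k| = Pool.Agent.Q85.Ritt.mass (U j) := by
      unfold Pool.Agent.Q85.Ritt.mass Pool.Agent.Q85.Ritt.pair
      rw [tsum_eq_sum (s := sp (U j)) (fun k hk => by rw [notMem_sp.1 hk, abs_zero])]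
      exact Finset.sum_congr rfl (fun k _ => by rw [abs_of_nonneg ((Pool.Agent.Q85.Ritt.good_U j).nn k), mul_one])
    rw [h2, h1]
  | zero => simp [co_zero]
  | @add F G B B' _ _ h1 h2 =>
    have h3 : ∑' k, |co (F + G) k| ≤ ∑' k, |co F k| + ∑' k, |co G k| := by
      rw [← (summable_co F).tsum_add (summable_co G)]
      exact Summable.tsum_le_tsum (fun k => by rw [co_add]; exact abs_add_le _ _) (summable_co _)
        ((summable_co F).add (summable_co G))
    linarith
  | @smul a F B _ h =>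
    have h3 : ∑' k, |co (a • F) k| = |a| * ∑' k, |co F k| := by
      rw [← tsum_mul_left]; exact tsum_congr (fun k => by rw [co_smul, abs_mul])
    rw [h3]; gcongr
  | mono _ h1 h2 => exact h2.trans h1

/-! ### The Hardy-Littlewood maximal function on `ℤ` -/

/-- averages -/
noncomputable def av (f : ℤ → ℝ) (k : ℤ) (r : ℕ) : ℝ :=
  (1 / (2 * (r : ℝ) + 1)) * ∑ j ∈ Finset.Icc (-(r : ℤ)) r, |f (k - j)|

/-- maximal function -/
noncomputable def Mx (f : ℤ → ℝ) (k : ℤ) : ℝ := ⨆ r : ℕ, av f k r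

theorem summable_shift {f : ℤ → ℝ} (hf : Summable (fun k => |f k|)) (k : ℤ) : Summable (fun j => |f (k - j)|) :=
  (Equiv.subLeft k).summable_iff.2 hf

theorem tsum_shift {f : ℤ → ℝ} (k : ℤ) : ∑' j, |f (k - j)| = ∑' j, |f j| :=
  (Equiv.subLeft k).tsum_eq (fun j => |f j|)

theorem av_le {f : ℤ → ℝ} (hf : Summable (fun k => |f k|)) (k : ℤ) (r : ℕ) : av f k r ≤ ∑' j, |f j| := by
  unfold av
  have h1 : ∑ j ∈ Finset.Icc (-(r : ℤ)) r, |f (k - j)| ≤ ∑' j, |f j| := by
    rw [← tsum_shift (f := f) k]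
    exact (summable_shift hf k).sum_le_tsum _ (fun _ _ => abs_nonneg _)
  have h2 : 1 / (2 * (r : ℝ) + 1) ≤ 1 := by
    rw [div_le_one (by positivity)]
    have : (0 : ℝ) ≤ r := Nat.cast_nonneg _
    linarith
  have h3 : 0 ≤ ∑ j ∈ Finset.Icc (-(r : ℤ)) r, |f (k - j)| := Finset.sum_nonneg fun _ _ => abs_nonneg _
  calc (1 / (2 * (r : ℝ) + 1)) * ∑ j ∈ Finset.Icc (-(r : ℤ)) r, |f (k - j)|
      ≤ 1 * ∑ j ∈ Finset.Icc (-(r : ℤ)) r, |f (k - j)| := by gcongr
    _ ≤ _ := by rw [one_mul]; exact h1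

theorem bdd_av {f : ℤ → ℝ} (hf : Summable (fun k => |f k|)) (k : ℤ) : BddAbove (Set.range (fun r => av f k r)) :=
  ⟨_, by rintro _ ⟨r, rfl⟩; exact av_le hf k r⟩

theorem Mx_nonneg {f : ℤ → ℝ} (hf : Summable (fun k => |f k|)) (k : ℤ) : 0 ≤ Mx f k := by
  refine le_trans ?_ (le_ciSup (bdd_av hf k) 0)
  unfold av
  exact mul_nonneg (by positivity) (Finset.sum_nonneg fun _ _ => abs_nonneg _)

theorem Rep.max {F : A} {B : ℝ} (h : Rep F B) {f : ℤ → ℝ} (hf : Summable (fun k => |f k|)) (k : ℤ) :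
    |conv (co F) f k| ≤ B * Mx f k := by
  induction h with
  | base r =>
    rw [one_mul]
    refine le_trans ?_ (le_ciSup (bdd_av hf k) r)
    unfold conv av
    rw [tsum_eq_sum (s := Finset.Icc (-(r : ℤ)) r)]
    · refine (Finset.abs_sum_le_sum_abs _ _).trans (le_of_eq ?_)
      rw [Finset.mul_sum]
      refine Finset.sum_congr rfl (fun j hj => ?_)
      rw [abs_mul, co_U, if_pos (abs_le.2 (Finset.mem_Icc.1 hj)), abs_of_nonneg (by positivity)]
    · intro j hj
      rw [co_U, if_neg, zero_mul]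
      intro h; exact hj (Finset.mem_Icc.2 (abs_le.1 h))
  | zero =>
    have : conv (co 0) f k = 0 := by unfold conv; simp [co_zero]
    rw [this, abs_zero, zero_mul]
  | @add F G B B' _ _ h1 h2 =>
    have h3 : conv (co (F + G)) f k = conv (co F) f k + conv (co G) f k := by
      unfold conv
      rw [← (summable_row (summable_co F) hf k).tsum_add (summable_row (summable_co G) hf k)]
      exact tsum_congr (fun j => by rw [co_add]; ring)
    rw [h3]
    exact (abs_add_le _ _).trans (by linarith)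
  | @smul a F B _ h =>
    have h3 : conv (co (a • F)) f k = a * conv (co F) f k := by
      unfold conv
      rw [← tsum_mul_left]; exact tsum_congr (fun j => by rw [co_smul]; ring)
    rw [h3, abs_mul, mul_assoc]; gcongr
  | mono _ h1 h2 => exact h2.trans (mul_le_mul_of_nonneg_right h1 (Mx_nonneg hf k))

/-- passage to the limit in the pointwise bound -/
theorem Lim.max {FR : ℕ → A} {K : ℤ → ℝ} (hL : Lim (fun R => co (FR R)) K) {B : ℝ} (hB : ∀ R, Rep (FR R) B)
    {f : ℤ → ℝ} (hf : Summable (fun k => |f k|)) (k : ℤ) : |RittAndMaximal.conv K f k| ≤ B * Mx f k := by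
  have hbd : ∀ j, |f j| ≤ ∑' i, |f i| := fun j => hf.le_tsum j (fun _ _ => abs_nonneg _)
  have h1 : ∀ R, |RittAndMaximal.conv K f k| ≤ B * Mx f k + (∑' i, |co (FR R) i - K i|) * ∑' i, |f i| := by
    intro R
    have s1 := summable_sub' (summable_co (FR R)) hL.s2
    have h2 : RittAndMaximal.conv K f k = RittAndMaximal.conv (co (FR R)) f k
        - RittAndMaximal.conv (fun j => co (FR R) j - K j) f k := by
      rw [conv_sub_left (summable_co _) hL.s2 hf]; ring
    have h3 : |RittAndMaximal.conv (fun j => co (FR R) j - K j) f k| ≤ (∑' i, |co (FR R) i - K i|) * ∑' i, |f i| := by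
      refine le_trans ?_ (nrm_conv s1 hf)
      exact (summable_conv s1 hf).le_tsum k (fun _ _ => abs_nonneg _)
    rw [h2]
    refine (abs_sub _ _).trans (add_le_add (Rep.max (hB R) hf k) h3)
  have h4 : Tendsto (fun R => B * Mx f k + (∑' i, |co (FR R) i - K i|) * ∑' i, |f i|) atTop
      (𝓝 (B * Mx f k + 0 * ∑' i, |f i|)) :=
    tendsto_const_nhds.add (hL.t.mul tendsto_const_nhds)
  rw [zero_mul, add_zero] at h4
  exact ge_of_tendsto' h4 h1

/-- a covering lemma on `ℤ` -/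
theorem covering (ρ : ℤ → ℕ) : ∀ (n : ℕ) (S : Finset ℤ), S.card = n → ∃ G ⊆ S,
    (∀ a ∈ G, ∀ b ∈ G, a ≠ b → (ρ a : ℤ) + ρ b < |a - b|) ∧ (S.card : ℝ) ≤ ∑ a ∈ G, 2 * (2 * (ρ a : ℝ) + 1) := by
  classical
  intro n
  induction n using Nat.strong_induction_on with
  | _ n ih =>
    intro S hS
    rcases S.eq_empty_or_nonempty with rfl | hne
    · exact ⟨∅, by simp, by simp, by simp⟩
    · obtain ⟨c, hc, hmax⟩ := S.exists_max_image ρ hne
      set S' := S.filter (fun a => (ρ a : ℤ) + ρ c < |a - c|) with hS'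
      have hcS' : c ∉ S' := by
        rw [hS', Finset.mem_filter]
        rintro ⟨_, h⟩
        rw [sub_self, abs_zero] at h
        have := Int.natCast_nonneg (ρ c)
        omega
      have hsub : S' ⊆ S := Finset.filter_subset _ _
      have hlt : S'.card < n := by
        rw [← hS]
        exact Finset.card_lt_card ⟨hsub, fun h => hcS' (h hc)⟩
      obtain ⟨G, hG, hd, hcard⟩ := ih S'.card hlt S' rfl
      have hcG : c ∉ G := fun h => hcS' (hG h)
      refine ⟨insert c G, ?_, ?_, ?_⟩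
      · intro x hx
        rcases Finset.mem_insert.1 hx with rfl | hx
        · exact hc
        · exact hsub (hG hx)
      · intro a ha b hb hab
        rcases Finset.mem_insert.1 ha with rfl | ha'
        · rcases Finset.mem_insert.1 hb with rfl | hb'
          · exact absurd rfl hab
          · have := (Finset.mem_filter.1 (hG hb')).2
            rw [abs_sub_comm]; omega
        · rcases Finset.mem_insert.1 hb with rfl | hb'
          · exact (Finset.mem_filter.1 (hG ha')).2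
          · exact hd a ha' b hb' hab
      · rw [Finset.sum_insert hcG]
        have h1 : S.card ≤ S'.card + (4 * ρ c + 1) := by
          have h2 : S ⊆ S' ∪ Finset.Icc (c - 2 * ρ c) (c + 2 * ρ c) := by
            intro x hx
            rw [Finset.mem_union]
            by_cases hx' : x ∈ S'
            · exact Or.inl hx'
            · right
              have h3 : |x - c| ≤ (ρ x : ℤ) + ρ c := by
                by_contra h
                exact hx' (Finset.mem_filter.2 ⟨hx, not_le.1 h⟩)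
              have h4 : (ρ x : ℤ) ≤ ρ c := by exact_mod_cast hmax x hx
              rw [abs_le] at h3
              rw [Finset.mem_Icc]; omega
          refine (Finset.card_le_card h2).trans ((Finset.card_union_le _ _).trans ?_)
          rw [Int.card_Icc]
          have : (c + 2 * (ρ c : ℤ) + 1 - (c - 2 * ρ c)).toNat = 4 * ρ c + 1 := by omega
          rw [this]
        have h2 : (S.card : ℝ) ≤ S'.card + (4 * (ρ c : ℝ) + 1) := by exact_mod_cast h1
        have : (0 : ℝ) ≤ ρ c := Nat.cast_nonneg _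
        linarith

/-- the weak type inequality for finite sets -/
theorem weak_finite {f : ℤ → ℝ} (hf : Summable (fun k => |f k|)) {t : ℝ} (ht : 0 < t) (S : Finset ℤ)
    (hS : ∀ k ∈ S, t ≤ Mx f k) : t * (S.card : ℝ) ≤ 4 * ∑' k, |f k| := by
  classical
  have h1 : ∀ k : ℤ, ∃ r : ℕ, k ∈ S → t / 2 < av f k r := by
    intro k
    by_cases hk : k ∈ S
    · have h2 : t / 2 < Mx f k := lt_of_lt_of_le (by linarith) (hS k hk)
      obtain ⟨r, hr⟩ := exists_lt_of_lt_ciSup h2
      exact ⟨r, fun _ => hr⟩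
    · exact ⟨0, fun h => absurd h hk⟩
  choose ρ hρ using h1
  obtain ⟨G, hGS, hd, hcard⟩ := covering ρ S.card S rfl
  have h2 : ∀ k ∈ G, (t / 2) * (2 * (ρ k : ℝ) + 1) ≤ ∑ j ∈ Finset.Icc (k - ρ k) (k + ρ k), |f j| := by
    intro k hk
    have h3 := (hρ k (hGS hk)).le
    unfold av at h3
    rw [one_div, ← div_eq_inv_mul, le_div_iff₀ (by positivity)] at h3
    refine h3.trans (le_of_eq ?_)
    refine Finset.sum_bij (fun j _ => k - j) (fun j hj => ?_) (fun a _ b _ h => by omega) (fun b hb => ⟨k - b, ?_, by ring⟩)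
      (fun _ _ => rfl)
    · rw [Finset.mem_Icc] at hj ⊢; omega
    · rw [Finset.mem_Icc] at hb ⊢; omega
  have h3 : ∑ k ∈ G, ∑ j ∈ Finset.Icc (k - ρ k) (k + ρ k), |f j| ≤ ∑' j, |f j| := by
    have hdisj : Set.PairwiseDisjoint (G : Set ℤ) (fun k => Finset.Icc (k - ρ k) (k + (ρ k : ℤ))) := by
      intro a ha b hb hab
      rw [Function.onFun, Finset.disjoint_left]
      intro x hx hx'
      rw [Finset.mem_Icc] at hx hx'
      have h4 := hd a ha b hb hab
      rcases abs_cases (a - b) with ⟨h5, _⟩ | ⟨h5, _⟩ <;> omega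
    rw [← Finset.sum_biUnion hdisj]
    exact hf.sum_le_tsum _ (fun _ _ => abs_nonneg _)
  have h4 : ∑ k ∈ G, (t / 2) * (2 * (ρ k : ℝ) + 1) ≤ ∑' j, |f j| := (Finset.sum_le_sum h2).trans h3
  have h5 : ∑ a ∈ G, 2 * (2 * (ρ a : ℝ) + 1) = (4 / t) * ∑ k ∈ G, (t / 2) * (2 * (ρ k : ℝ) + 1) := by
    rw [Finset.mul_sum]
    refine Finset.sum_congr rfl (fun k _ => ?_)
    field_simp; ring
  calc t * (S.card : ℝ) ≤ t * ((4 / t) * ∑ k ∈ G, (t / 2) * (2 * (ρ k : ℝ) + 1)) := by
        rw [← h5]; gcongr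
    _ = 4 * ∑ k ∈ G, (t / 2) * (2 * (ρ k : ℝ) + 1) := by field_simp
    _ ≤ _ := by gcongr

theorem weak_set {f : ℤ → ℝ} (hf : Summable (fun k => |f k|)) {t : ℝ} (ht : 0 < t) (E : Set ℤ)
    (hE : ∀ k ∈ E, t ≤ Mx f k) : E.Finite ∧ t * (E.ncard : ℝ) ≤ 4 * ∑' k, |f k| := by
  have hfin : E.Finite := by
    by_contra hinf
    obtain ⟨n, hn⟩ := exists_nat_gt (4 * (∑' k, |f k|) / t)
    obtain ⟨S, hSE, hSn⟩ := (show E.Infinite from hinf).exists_subset_card_eq n
    have h1 := weak_finite hf ht S (fun k hk => hE k (hSE hk))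
    rw [hSn] at h1
    rw [div_lt_iff₀ ht] at hn
    linarith
  refine ⟨hfin, ?_⟩
  rw [Set.ncard_eq_toFinset_card E hfin]
  exact weak_finite hf ht _ (fun k hk => hE k (hfin.mem_toFinset.1 hk))

/-! ### Truncation -/

section trunc

variable {μ : ℤ → ℝ} (hμ : IsSymNonincProb μ)

/-- the weights of the mixture -/
noncomputable def wt (μ : ℤ → ℝ) (R : ℕ) (s : ℕ) : ℝ :=
  if s = 0 then 1 - ∑ j ∈ range R, (2 * ((j + 1 : ℕ) : ℝ) + 1) * (μ ((j + 1 : ℕ) : ℤ) - μ ((j + 2 : ℕ) : ℤ))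
  else (2 * (s : ℝ) + 1) * (μ s - μ ((s + 1 : ℕ) : ℤ))

include hμ

theorem anti' (n : ℕ) : μ ((n + 1 : ℕ) : ℤ) ≤ μ n := by
  have := hμ.2.2.2 n
  push_cast; exact this

theorem summable_mu : Summable (fun k => |μ k|) := by
  have := hμ.2.1.summable
  refine this.congr (fun k => ?_)
  rw [abs_of_nonneg (hμ.1 k)]

omit hμ in
/-- partial sums of the weights -/
theorem partial_sum (R : ℕ) : ∑ j ∈ range R, (2 * ((j + 1 : ℕ) : ℝ) + 1) * (μ ((j + 1 : ℕ) : ℤ) - μ ((j + 2 : ℕ) : ℤ))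
    = 2 * (∑ j ∈ range R, μ ((j + 1 : ℕ) : ℤ)) + μ 1 - (2 * (R : ℝ) + 1) * μ ((R + 1 : ℕ) : ℤ) := by
  induction R with
  | zero => simp
  | succ R ih =>
    rw [Finset.sum_range_succ, Finset.sum_range_succ, ih]
    push_cast
    ring

theorem wt_nonneg (R : ℕ) (s : ℕ) : 0 ≤ wt μ R s := by
  unfold wt
  split_ifs with h
  · rw [partial_sum]
    have h1 : ∑ k ∈ Finset.Icc (-(R : ℤ)) R, μ k ≤ 1 := by
      rw [← hμ.2.1.tsum_eq]
      exact hμ.2.1.summable.sum_le_tsum _ (fun k _ => hμ.1 k)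
    rw [sum_Icc_symm] at h1
    have h2 : ∑ j ∈ range R, (μ ((j + 1 : ℕ) : ℤ) + μ (-((j + 1 : ℕ) : ℤ))) = 2 * ∑ j ∈ range R, μ ((j + 1 : ℕ) : ℤ) := by
      rw [Finset.mul_sum]
      refine Finset.sum_congr rfl (fun j _ => ?_)
      rw [hμ.2.2.1]; ring
    rw [h2] at h1
    have h3 : μ 1 ≤ μ 0 := by simpa using anti' hμ 0
    have h4 : 0 ≤ (2 * (R : ℝ) + 1) * μ ((R + 1 : ℕ) : ℤ) := mul_nonneg (by positivity) (hμ.1 _)
    linarith
  · have := anti' hμ s
    exact mul_nonneg (by positivity) (by linarith)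

omit hμ in
theorem wt_sum (R : ℕ) : ∑ s ∈ range (R + 1), wt μ R s = 1 := by
  rw [Finset.sum_range_succ']
  have h1 : wt μ R 0 = 1 - ∑ j ∈ range R, (2 * ((j + 1 : ℕ) : ℝ) + 1) * (μ ((j + 1 : ℕ) : ℤ) - μ ((j + 2 : ℕ) : ℤ)) := by
    unfold wt; rw [if_pos rfl]
  have h2 : ∀ j ∈ range R, wt μ R (j + 1) = (2 * ((j + 1 : ℕ) : ℝ) + 1) * (μ ((j + 1 : ℕ) : ℤ) - μ ((j + 2 : ℕ) : ℤ)) := by
    intro j _
    unfold wt; rw [if_neg (Nat.succ_ne_zero j)]
  rw [h1, Finset.sum_congr rfl h2]; ring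

/-- the truncations -/
noncomputable def tr (_ : IsSymNonincProb μ) (R : ℕ) : A := mix (R + 1) (wt μ R)

theorem co_tr {k : ℤ} (hk : k ≠ 0) (R : ℕ) :
    co (tr hμ R) k = if k.natAbs ≤ R then μ k - μ ((R + 1 : ℕ) : ℤ) else 0 := by
  unfold tr mix
  rw [Pool.Agent.Q85.Ritt.co_sum]
  have habs : |k| = (k.natAbs : ℤ) := by simp
  have ha : k.natAbs ≠ 0 := by simpa using hk
  have hμk : μ k = μ (k.natAbs : ℤ) := by
    rcases abs_choice k with h | h
    · rw [← habs, h]
    · rw [← habs, h, hμ.2.2.1]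
  have h1 : ∀ s ∈ range (R + 1), co (wt μ R s • U s) k = if k.natAbs ≤ s then μ s - μ ((s + 1 : ℕ) : ℤ) else 0 := by
    intro s _
    rw [co_smul, co_U, habs]
    have : ((k.natAbs : ℤ) ≤ s) ↔ k.natAbs ≤ s := by exact_mod_cast Iff.rfl
    simp only [this]
    split_ifs with h
    · unfold wt
      rw [if_neg (by omega)]
      field_simp
    · rw [mul_zero]
  rw [Finset.sum_congr rfl h1, ← Finset.sum_filter, hμk]
  split_ifs with h
  · have h2 : (range (R + 1)).filter (fun s => k.natAbs ≤ s) = Finset.Ico k.natAbs (R + 1) := by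
      ext j; simp [Finset.mem_range, Finset.mem_Ico]; omega
    rw [h2]
    have h3 := Finset.sum_Ico_sub (fun j : ℕ => μ (j : ℤ)) (show k.natAbs ≤ R + 1 by omega)
    have h4 : ∑ j ∈ Finset.Ico k.natAbs (R + 1), (μ (j : ℤ) - μ ((j + 1 : ℕ) : ℤ))
        = -∑ j ∈ Finset.Ico k.natAbs (R + 1), (μ ((j + 1 : ℕ) : ℤ) - μ (j : ℤ)) := by
      rw [← Finset.sum_neg_distrib]; exact Finset.sum_congr rfl (fun j _ => by ring)
    rw [h4, h3]; ring
  · rw [Finset.filter_false_of_mem, Finset.sum_empty]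
    intro j hj
    rw [Finset.mem_range] at hj; omega

theorem tsum_tr (R : ℕ) : ∑' k, co (tr hμ R) k = 1 := by
  have h1 : Pool.Agent.Q85.Ritt.mass (tr hμ R) = 1 := by
    unfold tr mix Pool.Agent.Q85.Ritt.mass
    rw [Pool.Agent.Q85.Ritt.pair_sum]
    refine Eq.trans ?_ (wt_sum (μ := μ) R)
    refine Finset.sum_congr rfl (fun s _ => ?_)
    rw [Pool.Agent.Q85.Ritt.pair_smul]
    have := Pool.Agent.Q85.Ritt.mass_U s
    unfold Pool.Agent.Q85.Ritt.mass at this
    rw [this, mul_one]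
  rw [← h1]
  unfold Pool.Agent.Q85.Ritt.mass Pool.Agent.Q85.Ritt.pair
  rw [tsum_eq_sum (s := sp (tr hμ R)) (fun k hk => notMem_sp.1 hk)]
  exact Finset.sum_congr rfl (fun k _ => (mul_one _).symm)

theorem lim_tr : Lim (fun R => co (tr hμ R)) μ := by
  have hsμ := summable_mu hμ
  refine ⟨fun R => summable_co _, hsμ, ?_⟩
  set h : ℕ → ℤ → ℝ := fun R k => if k = 0 then 0 else |co (tr hμ R) k - μ k| with hh
  have hμR : Tendsto (fun R : ℕ => μ ((R + 1 : ℕ) : ℤ)) atTop (𝓝 0) := by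
    have h1 : Tendsto μ cofinite (𝓝 0) := hμ.2.1.summable.tendsto_cofinite_zero
    have h2 : Function.Injective (fun R : ℕ => ((R + 1 : ℕ) : ℤ)) := by
      intro a b hab
      have : ((a + 1 : ℕ) : ℤ) = ((b + 1 : ℕ) : ℤ) := hab
      omega
    have h3 := h1.comp h2.tendsto_cofinite
    rw [Nat.cofinite_eq_atTop] at h3
    exact h3
  have hbound : ∀ R k, |h R k| ≤ |μ k| := by
    intro R k
    simp only [hh]
    split_ifs with hk
    · simp
    · rw [abs_abs, co_tr hμ hk]
      have h0 := hμ.1 k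
      have h1 := hμ.1 ((R + 1 : ℕ) : ℤ)
      split_ifs with h2
      · have h3 : μ ((R + 1 : ℕ) : ℤ) ≤ μ k := by
          have hμk : μ k = μ (k.natAbs : ℤ) := by
            have habs : |k| = (k.natAbs : ℤ) := by simp
            rcases abs_choice k with h | h
            · rw [← habs, h]
            · rw [← habs, h, hμ.2.2.1]
          rw [hμk]
          have hanti : Antitone (fun n : ℕ => μ n) := antitone_nat_of_succ_le (fun n => anti' hμ n)
          exact hanti (by omega)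
        rw [abs_of_nonneg h0, abs_le]; constructor <;> linarith
      · rw [zero_sub, abs_neg]
  have hpt : ∀ k, Tendsto (fun R => h R k) atTop (𝓝 0) := by
    intro k
    simp only [hh]
    split_ifs with hk
    · exact tendsto_const_nhds
    · refine (hμR).congr' ?_
      filter_upwards [eventually_ge_atTop k.natAbs] with R hR
      rw [co_tr hμ hk, if_pos hR]
      have := hμ.1 ((R + 1 : ℕ) : ℤ)
      rw [show μ k - μ ((R + 1 : ℕ) : ℤ) - μ k = -μ ((R + 1 : ℕ) : ℤ) by ring, abs_neg, abs_of_nonneg this]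
  have hlim : Tendsto (fun R => ∑' k, h R k) atTop (𝓝 (∑' k : ℤ, (0 : ℝ))) :=
    tendsto_tsum_of_dominated_convergence hsμ hpt (Filter.Eventually.of_forall fun R k => by
      rw [Real.norm_eq_abs]; exact hbound R k)
  rw [tsum_zero] at hlim
  have hsh : ∀ R, Summable (h R) := fun R =>
    Summable.of_norm_bounded hsμ (fun k => by rw [Real.norm_eq_abs]; exact hbound R k)
  have h2 := hlim.const_mul 2
  rw [mul_zero] at h2
  refine squeeze_zero (fun R => tsum_nonneg fun _ => abs_nonneg _) (fun R => ?_) h2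
  have hs1 : Summable (fun k => co (tr hμ R) k - μ k) :=
    (Summable.of_norm (by simpa using summable_co (tr hμ R))).sub hμ.2.1.summable
  have hs1' := summable_sub' (summable_co (tr hμ R)) hsμ
  have hz : ∑' k, (co (tr hμ R) k - μ k) = 0 := by
    rw [Summable.tsum_sub (Summable.of_norm (by simpa using summable_co (tr hμ R))) hμ.2.1.summable, tsum_tr hμ,
      hμ.2.1.tsum_eq, sub_self]
  have h3 : co (tr hμ R) 0 - μ 0 = -∑' k, (if k = 0 then 0 else (co (tr hμ R) k - μ k)) := by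
    have h4 := hs1.tsum_eq_add_tsum_ite 0
    rw [hz] at h4
    linarith
  have h5 : |co (tr hμ R) 0 - μ 0| ≤ ∑' k, h R k := by
    rw [h3, abs_neg]
    have h6 : ∀ k, |if k = 0 then (0 : ℝ) else (co (tr hμ R) k - μ k)| = h R k := by
      intro k; simp only [hh]; split_ifs <;> simp
    have h7 : Summable (fun k => ‖if k = 0 then (0 : ℝ) else (co (tr hμ R) k - μ k)‖) :=
      (hsh R).congr (fun k => by rw [Real.norm_eq_abs, h6])
    have h8 := norm_tsum_le_tsum_norm h7
    simp only [Real.norm_eq_abs] at h8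
    refine h8.trans (le_of_eq (tsum_congr h6))
  rw [hs1'.tsum_eq_add_tsum_ite 0]
  have h9 : ∑' k, (if k = 0 then (0 : ℝ) else |co (tr hμ R) k - μ k|) = ∑' k, h R k := rfl
  rw [h9]
  linarith

theorem kernel_lim (m n : ℕ) :
    Lim (fun R => co (tr hμ R ^ n * (1 - tr hμ R) ^ m)) (RittAndMaximal.conv (RittAndMaximal.cpow μ n)
      (RittAndMaximal.cpow (fun k => delta k - μ k) m)) := by
  have h1 := (lim_tr hμ).cpow n
  have h2 := ((Lim.const summable_delta).sub (lim_tr hμ)).cpow m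
  have h3 := h1.conv h2
  have e : (fun R => co (tr hμ R ^ n * (1 - tr hμ R) ^ m))
      = fun R => RittAndMaximal.conv (RittAndMaximal.cpow (co (tr hμ R)) n)
        (RittAndMaximal.cpow (fun k => delta k - co (tr hμ R) k) m) := by
    funext R
    rw [co_mul_eq, co_pow_eq, co_pow_eq, co_one_sub]
  rw [e]
  exact h3

theorem kernel_max (m n : ℕ) {f : ℤ → ℝ} (hf : Summable (fun k => |f k|)) (k : ℤ) :
    (n : ℝ) ^ m * |RittAndMaximal.conv (RittAndMaximal.conv (RittAndMaximal.cpow μ n)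
      (RittAndMaximal.cpow (fun k => delta k - μ k) m)) f k| ≤ ((m : ℝ) ^ m * 2820108 ^ m) * Mx f k := by
  have hcore : ∀ R, Rep (((n : ℝ) ^ m) • (tr hμ R ^ n * (1 - tr hμ R) ^ m)) ((m : ℝ) ^ m * 2820108 ^ m) :=
    fun R => Pool.Agent.Q85.Ritt.core (wt_nonneg hμ R) (wt_sum R) m n
  have hL := kernel_lim hμ m n
  have hL' : Lim (fun R => co (((n : ℝ) ^ m) • (tr hμ R ^ n * (1 - tr hμ R) ^ m)))
      (fun k => (n : ℝ) ^ m * RittAndMaximal.conv (RittAndMaximal.cpow μ n)
        (RittAndMaximal.cpow (fun k => delta k - μ k) m) k) := by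
    refine ⟨fun R => summable_co _, ?_, ?_⟩
    · simp only [abs_mul]
      exact hL.s2.mul_left _
    · have h1 := hL.t.const_mul |(n : ℝ) ^ m|
      rw [mul_zero] at h1
      refine h1.congr (fun R => ?_)
      rw [← tsum_mul_left]
      refine tsum_congr (fun k => ?_)
      rw [co_smul, ← mul_sub, abs_mul]
  have h2 := hL'.max hcore hf k
  have h3 : RittAndMaximal.conv (fun k => (n : ℝ) ^ m * RittAndMaximal.conv (RittAndMaximal.cpow μ n)
        (RittAndMaximal.cpow (fun k => delta k - μ k) m) k) f k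
      = (n : ℝ) ^ m * RittAndMaximal.conv (RittAndMaximal.conv (RittAndMaximal.cpow μ n)
        (RittAndMaximal.cpow (fun k => delta k - μ k) m)) f k := by
    generalize RittAndMaximal.conv (RittAndMaximal.cpow μ n)
        (RittAndMaximal.cpow (fun k => delta k - μ k) m) = X
    unfold RittAndMaximal.conv
    rw [← tsum_mul_left]
    exact tsum_congr (fun j => by ring)
  rw [h3, abs_mul, abs_of_nonneg (by positivity)] at h2
  exact h2

theorem ritt : IsRitt μ := by
  refine ⟨1 * 2820108, fun n _ => ?_⟩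
  have h1 := (lim_tr hμ).cpow n
  have h2 := (lim_tr hμ).cpow (n + 1)
  have h3 := h1.sub h2
  refine ⟨h3.s2, ?_⟩
  have hcore : ∀ R, Rep (((n : ℝ) ^ 1) • (tr hμ R ^ n * (1 - tr hμ R) ^ 1)) (((1 : ℕ) : ℝ) ^ 1 * 2820108 ^ 1) :=
    fun R => Pool.Agent.Q85.Ritt.core (wt_nonneg hμ R) (wt_sum R) 1 n
  have h4 : ∀ R, (n : ℝ) * ∑' k, |RittAndMaximal.cpow (co (tr hμ R)) n k - RittAndMaximal.cpow (co (tr hμ R)) (n + 1) k|
      ≤ 1 * 2820108 := by
    intro R
    have h5 := Rep.nrm (hcore R)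
    have h6 : ∀ k, co (((n : ℝ) ^ 1) • (tr hμ R ^ n * (1 - tr hμ R) ^ 1)) k
        = (n : ℝ) * (RittAndMaximal.cpow (co (tr hμ R)) n k - RittAndMaximal.cpow (co (tr hμ R)) (n + 1) k) := by
      intro k
      have e : tr hμ R ^ n * (1 - tr hμ R) ^ 1 = tr hμ R ^ n - tr hμ R ^ (n + 1) := by ring
      rw [e, co_smul, co_sub, co_pow_eq, co_pow_eq, pow_one]
    simp only [h6, abs_mul, Nat.abs_cast] at h5
    rw [tsum_mul_left] at h5
    refine h5.trans (le_of_eq ?_)
    norm_num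
  have h5 : ∀ R, (n : ℝ) * ∑' k, |RittAndMaximal.cpow μ n k - RittAndMaximal.cpow μ (n + 1) k|
      ≤ 1 * 2820108 + (n : ℝ) * ∑' k, |(RittAndMaximal.cpow (co (tr hμ R)) n k - RittAndMaximal.cpow (co (tr hμ R)) (n + 1) k)
        - (RittAndMaximal.cpow μ n k - RittAndMaximal.cpow μ (n + 1) k)| := by
    intro R
    have h6 := h3.bdd' R
    have h7 := mul_le_mul_of_nonneg_left h6 (Nat.cast_nonneg (α := ℝ) n)
    rw [mul_add] at h7
    exact h7.trans (add_le_add (h4 R) le_rfl)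
  have h6 := (h3.t.const_mul (n : ℝ)).const_add (1 * 2820108)
  rw [mul_zero, add_zero] at h6
  exact ge_of_tendsto' h6 h5

theorem weak (m : ℕ) : WeakType μ m := by
  set B : ℝ := (m : ℝ) ^ m * 2820108 ^ m + 1 with hB
  have hBpos : 0 < B := by positivity
  refine ⟨4 * B, by positivity, fun f hf lam hlam => ?_⟩
  have h1 : ∀ k ∈ {k : ℤ | ENNReal.ofReal lam ≤ maxFun μ m f k}, lam / B ≤ Mx f k := by
    intro k hk
    have hk' : ENNReal.ofReal lam ≤ maxFun μ m f k := hk
    have h2 : maxFun μ m f k ≤ ENNReal.ofReal (B * Mx f k) := by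
      unfold maxFun
      refine iSup_le fun n => iSup_le fun _ => ENNReal.ofReal_le_ofReal ?_
      refine (kernel_max hμ m n hf k).trans ?_
      have := Mx_nonneg hf k
      rw [hB]; nlinarith
    have h3 := hk'.trans h2
    rw [ENNReal.ofReal_le_ofReal_iff (mul_nonneg hBpos.le (Mx_nonneg hf k))] at h3
    rw [div_le_iff₀ hBpos]; linarith
  obtain ⟨h2, h3⟩ := weak_set hf (div_pos hlam hBpos) _ h1
  refine ⟨h2, ?_⟩
  rw [div_mul_eq_mul_div, div_le_iff₀ hBpos] at h3
  linarith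

end trunc

end conv

/-- **Every symmetric probability measure on `ℤ` which is non-increasing on `ℕ` is Ritt and satisfies
the weak type maximal inequality of every order.** -/
theorem result : ∀ μ : ℤ → ℝ, IsSymNonincProb μ → IsRitt μ ∧ ∀ m : ℕ, WeakType μ m :=
  fun _ hμ => ⟨ritt hμ, weak hμ⟩

end Pool.Agent.Results.MP_e7950b_an.RittAndMaximal
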